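import Pool.Agent.H536R3.Final

/-!
# Project CT, job CT-ACT: quasi-action from a cobounded isometric action on a pseudo-metric space
(adapted from `exists_QA` in `Pool.Agent.H536R3.Final`)
-/

set_option autoImplicit false

open Pool.Agent.H536R3

universe v w

namespace Pool.Agent.Y903.CT

theorem act_QA (s : ℤ → ℕ) (Y : Type v) [PseudoMetricSpace Y] (H : Type w) [Group H]
    [MulAction H Y] (hiso : ∀ (h : H) (y z : Y), dist (h • y) (h • z) = dist y z)
    (B : ℝ) (hcob : ∀ y z : Y, ∃ h : H, dist (h • y) z ≤ B)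
    (F : KK s × ℤ → Y) (K C : ℝ) (hK : 1 ≤ K) (hC : 0 ≤ C)
    (hF : ∀ x x', K⁻¹ * (dX s x x' : ℝ) - C ≤ dist (F x) (F x') ∧
      dist (F x) (F x') ≤ K * (dX s x x' : ℝ) + C)
    (hF2 : ∀ y, ∃ x, dist y (F x) ≤ C) :
    ∃ (f : H → KK s × ℤ → KK s × ℤ) (K' C' : ℕ), QA s f K' C' := by
  choose G hG' using hF2
  obtain ⟨A, hA⟩ := exists_nat_ge (K + C + K * C + |B| + 1)
  have hKC : 0 ≤ K * C := mul_nonneg (by linarith) hC
  have hB0 := abs_nonneg B
  have hBB := le_abs_self B
  have hA0 : (0 : ℝ) ≤ A := Nat.cast_nonneg A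
  have hG : ∀ y, dist y (F (G y)) ≤ A := fun y => (hG' y).trans (by linarith)
  have h1 : ∀ x x', dist (F x) (F x') ≤ A * (dX s x x' : ℝ) + A := by
    intro x x'
    have h0 : (0 : ℝ) ≤ dX s x x' := Nat.cast_nonneg _
    have h2 := (hF x x').2
    have h3 : K * (dX s x x' : ℝ) ≤ A * dX s x x' :=
      mul_le_mul_of_nonneg_right (by linarith) h0
    linarith
  have h2 : ∀ x x', (dX s x x' : ℝ) ≤ A * dist (F x) (F x') + A := by
    intro x x'
    have hK0 : 0 < K := by linarith
    have h3 := (hF x x').1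
    have h4 : (dX s x x' : ℝ) ≤ K * (dist (F x) (F x') + C) := by
      have h5 : K⁻¹ * (dX s x x' : ℝ) ≤ dist (F x) (F x') + C := by linarith
      have h6 := mul_le_mul_of_nonneg_left h5 hK0.le
      rwa [← mul_assoc, mul_inv_cancel₀ hK0.ne', one_mul] at h6
    have h5 : K * dist (F x) (F x') ≤ A * dist (F x) (F x') :=
      mul_le_mul_of_nonneg_right (by linarith) dist_nonneg
    nlinarith
  have hFG : ∀ a b, dist (F (G a)) (F (G b)) ≤ dist a b + 2 * A := by
    intro a b
    have e1 := dist_triangle (F (G a)) a (F (G b))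
    have e2 := dist_triangle a b (F (G b))
    have e3 := hG a
    have e4 := hG b
    rw [dist_comm] at e3
    linarith
  have hFG' : ∀ a b, dist a b ≤ dist (F (G a)) (F (G b)) + 2 * A := by
    intro a b
    have e1 := dist_triangle a (F (G a)) b
    have e2 := dist_triangle (F (G a)) (F (G b)) b
    have e3 := hG a
    have e4 := hG b
    rw [dist_comm] at e4
    linarith
  have hGG : ∀ a b, (dX s (G a) (G b) : ℝ) ≤ A * (dist a b + 2 * A) + A := by
    intro a b
    have e1 := mul_le_mul_of_nonneg_left (hFG a b) hA0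
    have e2 := h2 (G a) (G b)
    linarith
  have hGG' : ∀ a b, dist a b ≤ A * (dX s (G a) (G b) : ℝ) + A + 2 * A := by
    intro a b
    have e1 := hFG' a b
    have e2 := h1 (G a) (G b)
    linarith
  have hAA : (0 : ℝ) ≤ A * A := mul_nonneg hA0 hA0
  refine ⟨fun h x => G (h • F x), A * A, 10 * (A * A) + 10 * A, ?_, ?_, ?_, ?_, ?_⟩
  · intro h x y
    have e1 := hGG (h • F x) (h • F y)
    rw [hiso] at e1
    have e2 := mul_le_mul_of_nonneg_left (h1 x y) hA0
    have e3 : (dX s (G (h • F x)) (G (h • F y)) : ℝ) ≤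
        A * A * dX s x y + (10 * (A * A) + 10 * A) := by
      nlinarith
    exact_mod_cast e3
  · intro h x y
    have e1 := hGG' (h • F x) (h • F y)
    rw [hiso] at e1
    have e2 := h2 x y
    have e3 := mul_le_mul_of_nonneg_left e1 hA0
    have e4 : (dX s x y : ℝ) ≤
        A * A * dX s (G (h • F x)) (G (h • F y)) + (10 * (A * A) + 10 * A) := by
      nlinarith
    exact_mod_cast e4
  · intro h h' x
    have e0 : (h * h') • F x = h • h' • F x := mul_smul h h' (F x)
    have e1 := hGG (h • F (G (h' • F x))) (h • h' • F x)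
    rw [hiso] at e1
    have e2 := hG (h' • F x)
    rw [dist_comm] at e2
    have e3 := mul_le_mul_of_nonneg_left e2 hA0
    have e4 : (dX s (G (h • F (G (h' • F x)))) (G (h • h' • F x)) : ℝ) ≤
        10 * (A * A) + 10 * A := by
      nlinarith
    have e5 : dX s (G (h • F (G (h' • F x)))) (G (h • h' • F x)) ≤ 10 * (A * A) + 10 * A := by
      exact_mod_cast e4
    rw [← e0] at e5
    exact e5
  · intro x
    have e1 := h2 (G (F x)) x
    have e2 := hG (F x)
    rw [dist_comm] at e2
    have e3 := mul_le_mul_of_nonneg_left e2 hA0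
    have e4 : (dX s (G (F x)) x : ℝ) ≤ 10 * (A * A) + 10 * A := by
      nlinarith
    have e5 : dX s (G (F x)) x ≤ 10 * (A * A) + 10 * A := by
      exact_mod_cast e4
    show dX s (G ((1 : H) • F x)) x ≤ _
    rw [one_smul]
    exact e5
  · intro x y
    obtain ⟨h, hh⟩ := hcob (F x) (F y)
    refine ⟨h, ?_⟩
    have e1 := h2 (G (h • F x)) y
    have e2 := hG (h • F x)
    rw [dist_comm] at e2
    have e3 := dist_triangle (F (G (h • F x))) (h • F x) (F y)
    have e4 : dist (F (G (h • F x))) (F y) ≤ 2 * A := by linarith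
    have e5 := mul_le_mul_of_nonneg_left e4 hA0
    have e6 : (dX s (G (h • F x)) y : ℝ) ≤ 10 * (A * A) + 10 * A := by
      nlinarith
    exact_mod_cast e6

end Pool.Agent.Y903.CT
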